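import Pool.Agent.H24.Krek.Ordered

/-!
# From the game to graded Lie rings
-/

set_option autoImplicit false

namespace Pool.Agent.H24.Krek

open Pool.Agent.H75.Krek

variable {G : Type*} [AddCommGroup G] {L : Type*} [LieRing L]

theorem lcs_le {X : G → AddSubgroup L} (hX : ⨆ i, X i = ⊤) (s : ℕ) :
    ∀ x ∈ LieModule.lowerCentralSeries ℤ L L s, x ∈ ⨆ i, act X X s i := by
  induction s with
  | zero =>
    intro x _
    rw [act_zero, hX]
    trivial
  | succ s ih =>
    intro x hx
    rw [LieModule.lowerCentralSeries_succ] at hx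
    have hx' : x ∈ (⁅(⊤ : LieIdeal ℤ L), LieModule.lowerCentralSeries ℤ L L s⁆ :
        LieSubmodule ℤ L L).toSubmodule := hx
    rw [LieSubmodule.lieIdeal_oper_eq_linear_span'] at hx'
    have hle : Submodule.span ℤ {m | ∃ x ∈ (⊤ : LieIdeal ℤ L),
        ∃ n ∈ LieModule.lowerCentralSeries ℤ L L s, ⁅x, n⁆ = m} ≤
        AddSubgroup.toIntSubmodule (⨆ i, act X X (s + 1) i) := by
      refine Submodule.span_le.2 ?_
      rintro _ ⟨a, _, b, hb, rfl⟩
      have ha : a ∈ ⨆ i, X i := by rw [hX]; trivial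
      have h := lie_mem_iSup_star (ih b hb) ha
      change ⁅a, b⁆ ∈ ⨆ i, act X X (s + 1) i
      rw [← lie_skew]
      exact neg_mem h
    exact hle hx'

theorem lcs_eq_bot {X : G → AddSubgroup L} (hX : ⨆ i, X i = ⊤) {s : ℕ}
    (h : act X X s ≤ fun _ => ⊥) : LieModule.lowerCentralSeries ℤ L L s = ⊥ := by
  refine (LieSubmodule.eq_bot_iff _).2 ?_
  intro x hx
  have h1 := lcs_le hX s x hx
  have h2 : (⨆ i, act X X s i) ≤ ⊥ := iSup_le fun i => h i
  exact h2 h1

/-- Class and derived length of a graded Lie ring whose support is a set on which the game is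
won. -/
theorem class_of_won {S : Set G} {N : ℕ} (hW : Won S N) {X : G → AddSubgroup L}
    (htop : ⨆ i, X i = ⊤) (hgr : ∀ i j, ∀ x ∈ X i, ∀ y ∈ X j, ⁅x, y⁆ ∈ X (i + j))
    (h0 : X 0 = ⊥) (hS : ∀ i, i ∉ S → X i = ⊥) :
    LieModule.lowerCentralSeries ℤ L L N = ⊥ := by
  refine lcs_eq_bot htop ?_
  refine act_le hW (closed_iff.2 hgr) h0 (closed_iff.2 hgr) ?_ ?_
  · refine star_le.2 ?_
    intro i j x hx y _
    have : x = 0 := hx
    subst this
    rw [zero_lie]
    exact zero_mem _
  · intro i hi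
    rw [hS i hi]

theorem derived_of_won {S : Set G} {N k : ℕ} (hW : Won S N) (hk : N + 1 ≤ 2 ^ k)
    {X : G → AddSubgroup L}
    (htop : ⨆ i, X i = ⊤) (hgr : ∀ i j, ∀ x ∈ X i, ∀ y ∈ X j, ⁅x, y⁆ ∈ X (i + j))
    (h0 : X 0 = ⊥) (hS : ∀ i, i ∉ S → X i = ⊥) :
    LieAlgebra.derivedSeries ℤ L k = ⊥ :=
  derivedSeries_eq_bot htop (der_eq_bot hW hk (closed_iff.2 hgr) h0 hS)

omit [AddCommGroup G] in
theorem iSup_eq_top_of_internal [DecidableEq G] {X : G → AddSubgroup L}
    (hint : DirectSum.IsInternal X) : ⨆ i, X i = ⊤ := by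
  refine (AddSubgroup.eq_top_iff' _).2 ?_
  intro x
  obtain ⟨y, rfl⟩ := hint.2 x
  induction y using DirectSum.induction_on with
  | zero => rw [map_zero]; exact zero_mem _
  | of i y =>
    rw [DirectSum.coeAddMonoidHom_of]
    exact AddSubgroup.mem_iSup_of_mem i y.2
  | add y z hy hz => rw [map_add]; exact add_mem hy hz

/-- From a window of length `n - g` to all nonzero residues, `g` the largest proper divisor. -/
theorem P_chain {n : ℕ} [NeZero n] {g t : ℕ} (hg1 : 1 ≤ g) (hgn : g + 1 ≤ n)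
    (hP : P L (win n 1 (n - g) : Set (ZMod n)) t) :
    P L (win n 1 (n - 1) : Set (ZMod n)) (2 ^ (g - 1) * (t + 1) - 1) := by
  have key : ∀ m : ℕ, m + 1 ≤ g →
      P L (win n 1 (n - g + m) : Set (ZMod n)) (2 ^ m * (t + 1) - 1) := by
    intro m
    induction m with
    | zero =>
      intro _
      rw [pow_zero, one_mul, add_zero, Nat.add_sub_cancel]
      exact hP
    | succ m ih =>
      intro hm
      have h1 := ih (by omega)
      have h2 := P_double (L := L) (n := n) (k := n - g + (m + 1)) (by omega) (by omega)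
        (t := 2 ^ m * (t + 1) - 1) (by
          have e : n - g + (m + 1) - 1 = n - g + m := by omega
          rw [e]; exact h1)
      refine h2.mono le_rfl ?_
      have h3 : 1 ≤ 2 ^ m * (t + 1) := Nat.mul_pos (by positivity) (by omega)
      have h4 : 2 ^ (m + 1) * (t + 1) = 2 * (2 ^ m * (t + 1)) := by ring
      rw [h4]
      omega
  have h5 := key (g - 1) (by omega)
  have e : n - g + (g - 1) = n - 1 := by omega
  rw [e] at h5
  exact h5

theorem card_win_le' (n : ℕ) [NeZero n] (a : ZMod n) (l : ℕ) : (win n a l).card ≤ l := by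
  classical
  have h : win n a l ⊆ (Finset.range l).image fun m : ℕ => a + (m : ZMod n) := by
    intro p hp
    have := mem_win.1 hp
    refine Finset.mem_image.2 ⟨(p - a).val, Finset.mem_range.2 this, ?_⟩
    rw [ZMod.natCast_zmod_val]
    abel
  refine le_trans (Finset.card_le_card h) (le_trans Finset.card_image_le ?_)
  rw [Finset.card_range]

/-- All residues: if the game is won with `2 ^ j` letters on all coset free subsets of size at
most `n - g`, `g = n / minFac n`, then `L^(s) = 0` for `s = 2 ^ (g - 1) * ((n - g) * (j + 1) + 1)`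
minus one. -/
theorem derived_zmod {n : ℕ} (hn : 2 ≤ n) {j : ℕ}
    (hW : ∀ S : Finset (ZMod n), S.card ≤ n - n / n.minFac → CF (S : Set (ZMod n)) →
      Won (S : Set (ZMod n)) (2 ^ j))
    (X : ZMod n → AddSubgroup L) (htop : ⨆ i, X i = ⊤)
    (hgr : ∀ i j, ∀ x ∈ X i, ∀ y ∈ X j, ⁅x, y⁆ ∈ X (i + j)) (h0 : X 0 = ⊥) :
    LieAlgebra.derivedSeries ℤ L
      (2 ^ (n / n.minFac - 1) * ((n - n / n.minFac) * (j + 1) + 1) - 1) = ⊥ := by
  have : NeZero n := ⟨by omega⟩
  set g := n / n.minFac with hg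
  have hgpos : 1 ≤ g := Nat.div_pos (Nat.minFac_le (by omega)) (Nat.minFac_pos n)
  have hgn : g + 1 ≤ n := by
    have : g < n := Nat.div_lt_self (by omega) (Nat.minFac_prime (by omega)).one_lt
    omega
  have hCF : CF (win n 1 (n - g) : Set (ZMod n)) :=
    win_CF (g := g) hn (by omega) le_rfl
  have hcard := card_win_le' n (1 : ZMod n) (n - g)
  have hP : P L (win n 1 (n - g) : Set (ZMod n)) ((n - g) * (j + 1)) := by
    refine (P_of_won (L := L) j _ (win n 1 (n - g)) rfl ?_).mono le_rfl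
      (Nat.mul_le_mul_right _ hcard)
    intro S' hS'
    exact hW S' (le_trans (Finset.card_le_card hS') hcard) (hCF.mono (by exact_mod_cast hS'))
  have hP' := P_chain hgpos hgn hP
  refine derivedSeries_eq_bot (X := X) htop ?_
  refine hP' X (fun _ => ⊥) (closed_iff.2 hgr) h0 ?_ (fun i => bot_le) ?_
  · refine closed_iff.2 ?_
    intro i j x hx y hy
    have : x = 0 := hx
    subst this
    rw [zero_lie]; exact zero_mem _
  · intro i hi
    have hi0 : i = 0 := by
      by_contra hne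
      apply hi
      refine mem_win.2 ?_
      have h1 : i.val ≠ 0 := fun h0 => hne ((ZMod.val_eq_zero i).1 h0)
      have h2 : i - 1 = ((i.val - 1 : ℕ) : ZMod n) := by
        rw [Nat.cast_sub (by omega), ZMod.natCast_zmod_val, Nat.cast_one]
      have h3 : i.val < n := ZMod.val_lt i
      rw [h2, ZMod.val_natCast, Nat.mod_eq_of_lt (by omega)]
      omega
    subst hi0
    rw [h0]

/-- Nonzero residues modulo a prime form a coset free set. -/
theorem CF_prime {p : ℕ} (hp : p.Prime) : CF ({0}ᶜ : Set (ZMod p)) := by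
  have : Fact p.Prime := ⟨hp⟩
  intro q _ i hi
  refine ⟨(-q * i⁻¹).val, ?_⟩
  intro h
  apply h
  change q + (-q * i⁻¹).val • i = 0
  rw [nsmul_eq_mul, ZMod.natCast_zmod_val, mul_assoc, inv_mul_cancel₀ hi, mul_one]
  ring

/-- Prime order: class and derived length. -/
theorem prime_of_won {p : ℕ} (hp : p.Prime) {N k : ℕ} (hW : ∀ S : Finset (ZMod p),
      S.card ≤ p - 1 → CF (S : Set (ZMod p)) → Won (S : Set (ZMod p)) N) (hk : N + 1 ≤ 2 ^ k)
    (X : ZMod p → AddSubgroup L) (htop : ⨆ i, X i = ⊤)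
    (hgr : ∀ i j, ∀ x ∈ X i, ∀ y ∈ X j, ⁅x, y⁆ ∈ X (i + j)) (h0 : X 0 = ⊥) :
    LieModule.lowerCentralSeries ℤ L L N = ⊥ ∧ LieAlgebra.derivedSeries ℤ L k = ⊥ := by
  classical
  have : Fact p.Prime := ⟨hp⟩
  have : NeZero p := ⟨hp.ne_zero⟩
  set S : Finset (ZMod p) := Finset.univ.erase 0 with hS
  have hScoe : (S : Set (ZMod p)) = {0}ᶜ := by
    ext x
    simp [hS]
  have hcard : S.card ≤ p - 1 := by
    rw [hS, Finset.card_erase_of_mem (Finset.mem_univ _), Finset.card_univ, ZMod.card]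
  have hWS := hW S hcard (by rw [hScoe]; exact CF_prime hp)
  have hoff : ∀ i, i ∉ (S : Set (ZMod p)) → X i = ⊥ := by
    intro i hi
    have : i = 0 := by
      by_contra hne
      apply hi
      rw [hScoe]
      exact hne
    rw [this, h0]
  exact ⟨class_of_won hWS htop hgr h0 hoff, derived_of_won hWS hk htop hgr h0 hoff⟩

end Pool.Agent.H24.Krek
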