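import Pool.Agent.H24.Krek.Final

/-!
# Graded Lie rings with few components
-/

set_option autoImplicit false

namespace Pool.Agent.H24.Krek

open Pool.Agent.H75.Krek

variable {L : Type*} [LieRing L]

/-- Class and derived length for supports without midpoints. -/
theorem few_noMid {G : Type*} [AddCommGroup G] {S : Finset G} {d : ℕ} (hd : S.card ≤ d)
    (hmid : ∀ Y ⊆ S, Y.Nonempty → ∃ t ∈ Y, ∀ x ∈ Y, x ≠ t → t + t - x ∉ Y)
    {X : G → AddSubgroup L} (htop : ⨆ i, X i = ⊤)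
    (hgr : ∀ i j, ∀ x ∈ X i, ∀ y ∈ X j, ⁅x, y⁆ ∈ X (i + j)) (h0 : X 0 = ⊥)
    (hS : ∀ i, i ∉ S → X i = ⊥) :
    LieModule.lowerCentralSeries ℤ L L (2 ^ d - 1) = ⊥ ∧ LieAlgebra.derivedSeries ℤ L d = ⊥ := by
  have hW := won_of_noMid S.card S rfl hmid
  have h1 : 2 ^ S.card ≤ 2 ^ d := Nat.pow_le_pow_right (by norm_num) hd
  have hW' : Won (S : Set G) (2 ^ d - 1) := hW.mono le_rfl (by omega)
  have h2 : 1 ≤ 2 ^ d := Nat.one_le_two_pow
  exact ⟨class_of_won hW' htop hgr h0 (fun i hi => hS i hi),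
    derived_of_won hW' (by omega) htop hgr h0 (fun i hi => hS i hi)⟩

/-- Finite sets in torsion free groups have elements which are not midpoints. -/
theorem noMid_torsionFree {G : Type*} [AddCommGroup G] [IsAddTorsionFree G] (Y : Finset G)
    (hY : Y.Nonempty) : ∃ t ∈ Y, ∀ x ∈ Y, x ≠ t → t + t - x ∉ Y := by
  classical
  let H : Submodule ℤ G := Submodule.span ℤ (Y : Set G)
  have : Module.Finite ℤ H := Module.Finite.span_of_finite ℤ Y.finite_toSet
  have : Module.Free ℤ H := inferInstance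
  let b := Module.Free.chooseBasis ℤ H
  have hmem : ∀ y ∈ Y, y ∈ H := fun y hy => Submodule.subset_span hy
  let f : G → ℤ := fun y => if h : y ∈ H then ∑ i, (b.repr ⟨y, h⟩ i) ^ 2 else 0
  obtain ⟨t, htY, ht⟩ := Finset.exists_max_image Y f hY
  refine ⟨t, htY, ?_⟩
  intro x hx hxt hmY
  apply hxt
  have ht' := hmem t htY
  have hx' := hmem x hx
  have hm' := hmem _ hmY
  have e1 : f t = ∑ i, (b.repr ⟨t, ht'⟩ i) ^ 2 := by simp only [f, dif_pos ht']
  have e2 : f x = ∑ i, (b.repr ⟨x, hx'⟩ i) ^ 2 := by simp only [f, dif_pos hx']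
  have e3 : f (t + t - x) = ∑ i, (2 * b.repr ⟨t, ht'⟩ i - b.repr ⟨x, hx'⟩ i) ^ 2 := by
    simp only [f, dif_pos hm']
    refine Finset.sum_congr rfl ?_
    intro i _
    have e4 : (⟨t + t - x, hm'⟩ : H) = (⟨t, ht'⟩ : H) + ⟨t, ht'⟩ - ⟨x, hx'⟩ := rfl
    rw [e4, map_sub, map_add]
    simp only [Finsupp.coe_sub, Finsupp.coe_add, Pi.sub_apply, Pi.add_apply]
    ring
  have h1 := ht x hx
  have h2 := ht _ hmY
  rw [e1, e2] at h1
  rw [e1, e3] at h2
  have h3 : ∑ i, (b.repr ⟨t, ht'⟩ i - b.repr ⟨x, hx'⟩ i) ^ 2 ≤ 0 := by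
    have h4 : 2 * ∑ i, (b.repr ⟨t, ht'⟩ i - b.repr ⟨x, hx'⟩ i) ^ 2 =
        (∑ i, (b.repr ⟨x, hx'⟩ i) ^ 2) +
          (∑ i, (2 * b.repr ⟨t, ht'⟩ i - b.repr ⟨x, hx'⟩ i) ^ 2) -
          2 * ∑ i, (b.repr ⟨t, ht'⟩ i) ^ 2 := by
      rw [Finset.mul_sum, Finset.mul_sum, ← Finset.sum_add_distrib, ← Finset.sum_sub_distrib]
      refine Finset.sum_congr rfl ?_
      intro i _
      ring
    linarith
  have h5 : ∀ i, b.repr ⟨t, ht'⟩ i - b.repr ⟨x, hx'⟩ i = 0 := by
    intro i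
    have h6 : (b.repr ⟨t, ht'⟩ i - b.repr ⟨x, hx'⟩ i) ^ 2 ≤
        ∑ i, (b.repr ⟨t, ht'⟩ i - b.repr ⟨x, hx'⟩ i) ^ 2 :=
      Finset.single_le_sum (f := fun i => (b.repr ⟨t, ht'⟩ i - b.repr ⟨x, hx'⟩ i) ^ 2)
        (fun i _ => sq_nonneg _) (Finset.mem_univ i)
    have h7 : (b.repr ⟨t, ht'⟩ i - b.repr ⟨x, hx'⟩ i) ^ 2 = 0 :=
      le_antisymm (le_trans h6 h3) (sq_nonneg _)
    exact pow_eq_zero_iff (by norm_num) |>.1 h7
  have h8 : (⟨t, ht'⟩ : H) = ⟨x, hx'⟩ := by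
    apply b.repr.injective
    ext i
    have := h5 i
    linarith
  exact (congrArg Subtype.val h8).symm

/-- Torsion free groups. -/
theorem few_torsionFree {G : Type*} [AddCommGroup G] [IsAddTorsionFree G] {S : Finset G} {d : ℕ}
    (hd : S.card ≤ d) {X : G → AddSubgroup L} (htop : ⨆ i, X i = ⊤)
    (hgr : ∀ i j, ∀ x ∈ X i, ∀ y ∈ X j, ⁅x, y⁆ ∈ X (i + j)) (h0 : X 0 = ⊥)
    (hS : ∀ i, i ∉ S → X i = ⊥) :
    LieModule.lowerCentralSeries ℤ L L (2 ^ d - 1) = ⊥ ∧ LieAlgebra.derivedSeries ℤ L d = ⊥ :=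
  few_noMid hd (fun Y _ hY => noMid_torsionFree Y hY) htop hgr h0 hS

/-- Dirichlet's theorem modulo `p`. -/
theorem exists_dilation {p : ℕ} [NeZero p] (S : Finset (ZMod p)) (hp : 3 ^ S.card < p) :
    ∃ δ : ZMod p, δ ≠ 0 ∧ ∀ y ∈ S, ∃ z : ℤ, 3 * |z| < p ∧ (z : ZMod p) = δ * y := by
  classical
  have hp0 : 0 < p := NeZero.pos p
  let f : ZMod p → (S → Fin 3) := fun u y =>
    ⟨3 * (u * (y : ZMod p)).val / p, by
      rw [Nat.div_lt_iff_lt_mul hp0]
      have := ZMod.val_lt (u * (y : ZMod p))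
      omega⟩
  have hcard : Fintype.card (S → Fin 3) < Fintype.card (ZMod p) := by
    rw [Fintype.card_fun, Fintype.card_fin, ZMod.card, Fintype.card_coe]
    exact hp
  obtain ⟨u, u', hne, hf⟩ := Fintype.exists_ne_map_eq_of_card_lt f hcard
  refine ⟨u - u', sub_ne_zero.2 hne, ?_⟩
  intro y hy
  refine ⟨((u * y).val : ℤ) - ((u' * y).val : ℤ), ?_, ?_⟩
  · have h1 : 3 * (u * y).val / p = 3 * (u' * y).val / p := by
      have := congrFun hf ⟨y, hy⟩
      simpa [f] using this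
    set a := (u * y).val
    set b := (u' * y).val
    have h2 := Nat.div_add_mod (3 * a) p
    have h3 := Nat.div_add_mod (3 * b) p
    have h4 := Nat.mod_lt (3 * a) hp0
    have h5 := Nat.mod_lt (3 * b) hp0
    rw [h1] at h2
    have h6 : (3 * (a : ℤ) - 3 * (b : ℤ)) = ((3 * a) % p : ℕ) - ((3 * b) % p : ℕ) := by
      have h2' : (3 * (a : ℤ)) = (p * (3 * b / p) : ℕ) + ((3 * a) % p : ℕ) := by
        rw [← Nat.cast_add, h2]; push_cast; ring
      have h3' : (3 * (b : ℤ)) = (p * (3 * b / p) : ℕ) + ((3 * b) % p : ℕ) := by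
        rw [← Nat.cast_add, h3]; push_cast; ring
      rw [h2', h3']
      ring
    have h7 : 3 * |(a : ℤ) - b| = |3 * (a : ℤ) - 3 * b| := by
      rw [← mul_sub, abs_mul]
      norm_num
    rw [h7, h6, abs_lt]
    constructor <;> omega
  · push_cast
    rw [ZMod.natCast_zmod_val, ZMod.natCast_zmod_val]
    ring

/-- Integers of absolute value less than `p / 3` which are congruent modulo `p` to within sums of
two are equal. -/
theorem eq_of_cast_eq {p : ℕ} {z w : ℤ} (h : (z : ZMod p) = (w : ZMod p)) (hzw : |z - w| < p) :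
    z = w := by
  have h1 : ((z - w : ℤ) : ZMod p) = 0 := by rw [Int.cast_sub, h, sub_self]
  rw [ZMod.intCast_zmod_eq_zero_iff_dvd] at h1
  have h2 := Int.eq_zero_of_abs_lt_dvd h1 hzw
  linarith

/-- Residues modulo a prime `p > 3 ^ d`. -/
theorem few_prime {p : ℕ} (hp : p.Prime) {S : Finset (ZMod p)} {d : ℕ}
    (hd : S.card ≤ d) (hpd : 3 ^ d < p) {X : ZMod p → AddSubgroup L} (htop : ⨆ i, X i = ⊤)
    (hgr : ∀ i j, ∀ x ∈ X i, ∀ y ∈ X j, ⁅x, y⁆ ∈ X (i + j)) (h0 : X 0 = ⊥)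
    (hS : ∀ i, i ∉ S → X i = ⊥) :
    LieModule.lowerCentralSeries ℤ L L (2 ^ d - 1) = ⊥ ∧ LieAlgebra.derivedSeries ℤ L d = ⊥ := by
  classical
  have : Fact p.Prime := ⟨hp⟩
  have : NeZero p := ⟨hp.ne_zero⟩
  obtain ⟨δ, hδ, hz⟩ := exists_dilation S
    (lt_of_le_of_lt (Nat.pow_le_pow_right (by norm_num) hd) hpd)
  let X' : ℤ → AddSubgroup L := fun z => if 3 * |z| < p then X (δ⁻¹ * (z : ZMod p)) else ⊥
  have hX'1 : ∀ z : ℤ, 3 * |z| < p → X' z = X (δ⁻¹ * (z : ZMod p)) := fun z h => if_pos h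
  have hX'2 : ∀ z : ℤ, ¬ 3 * |z| < p → X' z = ⊥ := fun z h => if_neg h
  let S' : Finset ℤ := (Finset.Icc (-(p : ℤ)) p).filter
    fun z => 3 * |z| < p ∧ δ⁻¹ * (z : ZMod p) ∈ S
  have hcard : S'.card ≤ S.card := by
    refine Finset.card_le_card_of_injOn (fun z => δ⁻¹ * (z : ZMod p)) ?_ ?_
    · intro z hz'
      exact (Finset.mem_filter.1 hz').2.2
    · intro z hz' w hw' h
      have h1 : (z : ZMod p) = (w : ZMod p) := mul_left_cancel₀ (inv_ne_zero hδ) h
      have h2 := (Finset.mem_filter.1 hz').2.1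
      have h3 := (Finset.mem_filter.1 hw').2.1
      refine eq_of_cast_eq h1 ?_
      have h4 := abs_sub z w
      omega
  refine few_torsionFree (S := S') (le_trans hcard hd) (X := X') ?_ ?_ ?_ ?_
  · refine top_le_iff.1 ?_
    rw [← htop]
    refine iSup_le ?_
    intro i
    by_cases hi : i ∈ S
    · obtain ⟨z, hz1, hz2⟩ := hz i hi
      refine le_trans (le_of_eq ?_) (le_iSup X' z)
      rw [hX'1 z hz1, hz2, ← mul_assoc, inv_mul_cancel₀ hδ, one_mul]
    · rw [hS i hi]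
      exact bot_le
  · intro z w x hx y hy
    by_cases h1 : 3 * |z| < p
    swap
    · rw [hX'2 z h1] at hx
      have : x = 0 := hx
      subst this
      rw [zero_lie]
      exact zero_mem _
    by_cases h2 : 3 * |w| < p
    swap
    · rw [hX'2 w h2] at hy
      have : y = 0 := hy
      subst this
      rw [lie_zero]
      exact zero_mem _
    rw [hX'1 z h1] at hx
    rw [hX'1 w h2] at hy
    have h3 := hgr _ _ x hx y hy
    have e : δ⁻¹ * (z : ZMod p) + δ⁻¹ * (w : ZMod p) = δ⁻¹ * ((z + w : ℤ) : ZMod p) := by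
      push_cast; ring
    rw [e] at h3
    by_cases h4 : 3 * |z + w| < p
    · rw [hX'1 _ h4]
      exact h3
    · have h5 : δ⁻¹ * ((z + w : ℤ) : ZMod p) ∉ S := by
        intro hmem
        obtain ⟨v, hv1, hv2⟩ := hz _ hmem
        rw [← mul_assoc, mul_inv_cancel₀ hδ, one_mul] at hv2
        apply h4
        have h6 : v = z + w := by
          refine eq_of_cast_eq hv2 ?_
          have h7 := abs_add_le z w
          have h8 := abs_sub v (z + w)
          omega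
        rw [← h6]
        exact hv1
      rw [hS _ h5] at h3
      have : ⁅x, y⁆ = 0 := h3
      rw [this]
      exact zero_mem _
  · have h1 : 3 * |(0 : ℤ)| < p := by
      rw [abs_zero, mul_zero]
      exact_mod_cast hp.pos
    rw [hX'1 0 h1, Int.cast_zero, mul_zero, h0]
  · intro z hz'
    by_cases h1 : 3 * |z| < p
    · rw [hX'1 z h1]
      refine hS _ ?_
      intro hmem
      apply hz'
      refine Finset.mem_filter.2 ⟨Finset.mem_Icc.2 ?_, h1, hmem⟩
      have := abs_nonneg z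
      have h2 : |z| ≤ p := by omega
      exact abs_le.1 h2
    · exact hX'2 z h1

end Pool.Agent.H24.Krek
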