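import Pool.Agent.H75.Krek.Deriv

/-!
# The walk game

A word is the list of the vertices of a walk on an abelian group `G`. `Dead S w` says that `w` is
dead over the set of vertices `S`. If all long words are dead then every graded Lie ring with
zero component `0` acts nilpotently on every section with weights in `S`.
-/

set_option autoImplicit false

namespace Pool.Agent.H24.Krek

open Pool.Agent.H75.Krek

variable {G : Type*} [AddCommGroup G]

/-- `Dead S w`: the walk with the list of vertices `w` is dead over `S`. A walk is dead if it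
leaves `S`, if it stands still, or if one of its inner vertices `y`, with neighbours `x`, `z`, is
such that both the walk with `y` replaced by `x + z - y` and the walk with `y` removed are
dead. -/
inductive Dead (S : Set G) : List G → Prop
  | out (l₁ : List G) (x : G) (l₂ : List G) : x ∉ S → Dead S (l₁ ++ x :: l₂)
  | stay (l₁ : List G) (x : G) (l₂ : List G) : Dead S (l₁ ++ x :: x :: l₂)
  | step (l₁ : List G) (x y z : G) (l₂ : List G) :
      Dead S (l₁ ++ x :: (x + z - y) :: z :: l₂) → Dead S (l₁ ++ x :: z :: l₂) →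
      Dead S (l₁ ++ x :: y :: z :: l₂)

/-- All words with at least `N` letters (more than `N` vertices) are dead over `S`. -/
def Won (S : Set G) (N : ℕ) : Prop := ∀ w : List G, N < w.length → Dead S w

/-- Words with a dead factor are dead. -/
theorem Dead.factor {S : Set G} {w : List G} (h : Dead S w) (a b : List G) :
    Dead S (a ++ w ++ b) := by
  induction h with
  | out l₁ x l₂ hx =>
    have e : a ++ (l₁ ++ x :: l₂) ++ b = (a ++ l₁) ++ x :: (l₂ ++ b) := by simp
    rw [e]
    exact Dead.out _ _ _ hx
  | stay l₁ x l₂ =>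
    have e : a ++ (l₁ ++ x :: x :: l₂) ++ b = (a ++ l₁) ++ x :: x :: (l₂ ++ b) := by simp
    rw [e]
    exact Dead.stay _ _ _
  | step l₁ x y z l₂ _ _ ih1 ih2 =>
    have e : a ++ (l₁ ++ x :: y :: z :: l₂) ++ b = (a ++ l₁) ++ x :: y :: z :: (l₂ ++ b) := by
      simp
    have e1 : a ++ (l₁ ++ x :: (x + z - y) :: z :: l₂) ++ b =
        (a ++ l₁) ++ x :: (x + z - y) :: z :: (l₂ ++ b) := by simp
    have e2 : a ++ (l₁ ++ x :: z :: l₂) ++ b = (a ++ l₁) ++ x :: z :: (l₂ ++ b) := by simp
    rw [e]
    rw [e1] at ih1
    rw [e2] at ih2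
    exact Dead.step _ _ _ _ _ ih1 ih2

theorem Dead.append_left {S : Set G} {w : List G} (h : Dead S w) (a : List G) :
    Dead S (a ++ w) := by
  have := h.factor a []
  rwa [List.append_nil] at this

theorem Dead.append_right {S : Set G} {w : List G} (h : Dead S w) (b : List G) :
    Dead S (w ++ b) := by
  have := h.factor [] b
  rwa [List.nil_append] at this

theorem Dead.cons {S : Set G} {w : List G} (h : Dead S w) (x : G) : Dead S (x :: w) :=
  h.append_left [x]

theorem Dead.of_infix {S : Set G} {w u : List G} (h : Dead S w) (hu : w <:+: u) : Dead S u := by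
  obtain ⟨a, b, rfl⟩ := hu
  exact h.factor a b

theorem Dead.of_notMem {S : Set G} {w : List G} {x : G} (hx : x ∈ w) (hS : x ∉ S) :
    Dead S w := by
  obtain ⟨a, b, rfl⟩ := List.append_of_mem hx
  exact Dead.out _ _ _ hS

theorem Dead.mono {S S' : Set G} (hS : S' ⊆ S) {w : List G} (h : Dead S w) : Dead S' w := by
  induction h with
  | out l₁ x l₂ hx => exact Dead.out _ _ _ fun h' => hx (hS h')
  | stay l₁ x l₂ => exact Dead.stay _ _ _
  | step l₁ x y z l₂ _ _ ih1 ih2 => exact Dead.step _ _ _ _ _ ih1 ih2

theorem Dead.reverse {S : Set G} {w : List G} (h : Dead S w) : Dead S w.reverse := by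
  induction h with
  | out l₁ x l₂ hx =>
    have e : (l₁ ++ x :: l₂).reverse = l₂.reverse ++ x :: l₁.reverse := by simp
    rw [e]
    exact Dead.out _ _ _ hx
  | stay l₁ x l₂ =>
    have e : (l₁ ++ x :: x :: l₂).reverse = l₂.reverse ++ x :: x :: l₁.reverse := by simp
    rw [e]
    exact Dead.stay _ _ _
  | step l₁ x y z l₂ _ _ ih1 ih2 =>
    have e : (l₁ ++ x :: y :: z :: l₂).reverse = l₂.reverse ++ z :: y :: x :: l₁.reverse := by
      simp
    have e1 : (l₁ ++ x :: (x + z - y) :: z :: l₂).reverse =
        l₂.reverse ++ z :: (z + x - y) :: x :: l₁.reverse := by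
      simp [add_comm]
    have e2 : (l₁ ++ x :: z :: l₂).reverse = l₂.reverse ++ z :: x :: l₁.reverse := by simp
    rw [e]
    rw [e1] at ih1
    rw [e2] at ih2
    exact Dead.step _ _ _ _ _ ih1 ih2

/-- Images under translated homomorphisms. -/
theorem Dead.map {H : Type*} [AddCommGroup H] {S : Set G} {T : Set H} (f : G →+ H) (c : H)
    (hT : ∀ x, x ∉ S → f x + c ∉ T) {w : List G} (h : Dead S w) :
    Dead T (w.map fun x => f x + c) := by
  induction h with
  | out l₁ x l₂ hx =>
    rw [List.map_append, List.map_cons]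
    exact Dead.out _ _ _ (hT x hx)
  | stay l₁ x l₂ =>
    rw [List.map_append, List.map_cons, List.map_cons]
    exact Dead.stay _ _ _
  | step l₁ x y z l₂ _ _ ih1 ih2 =>
    rw [List.map_append, List.map_cons, List.map_cons, List.map_cons] at ih1 ⊢
    rw [List.map_append, List.map_cons, List.map_cons] at ih2
    have e : f (x + z - y) + c = (f x + c) + (f z + c) - (f y + c) := by
      rw [map_sub, map_add]; abel
    rw [e] at ih1
    exact Dead.step _ _ _ _ _ ih1 ih2

theorem Won.mono {S S' : Set G} {N N' : ℕ} (h : Won S N) (hS : S' ⊆ S) (hN : N ≤ N') :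
    Won S' N' := fun w hw => (h w (lt_of_le_of_lt hN hw)).mono hS

variable {L : Type*} [LieRing L]

theorem br_mono {A A' B B' : AddSubgroup L} (h : A ≤ A') (h' : B ≤ B') : br A B ≤ br A' B' :=
  br_le.2 fun _ ha _ hb => mem_br (h ha) (h' hb)

theorem br_sup_le {A B C : AddSubgroup L} : br (A ⊔ B) C ≤ br A C ⊔ br B C := by
  refine br_le.2 ?_
  intro a ha c hc
  have : A ⊔ B ≤ (br A C ⊔ br B C).comap
      ({ toFun := fun z => ⁅z, c⁆, map_zero' := zero_lie c,
         map_add' := fun a b => add_lie a b c } : L →+ L) := by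
    refine sup_le ?_ ?_
    · intro z hz
      exact AddSubgroup.mem_sup_left (mem_br hz hc)
    · intro z hz
      exact AddSubgroup.mem_sup_right (mem_br hz hc)
  exact this ha

theorem br_bot_right (A : AddSubgroup L) : br A ⊥ = ⊥ := by
  refine le_bot_iff.1 (br_le.2 ?_)
  intro a _ b hb
  have : b = 0 := hb
  subst this
  rw [lie_zero]
  exact zero_mem _

/-- the product along a walk starting in `x` with the subgroup `A` -/
def walk (K : G → AddSubgroup L) : AddSubgroup L → G → List G → AddSubgroup L
  | A, _, [] => A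
  | A, x, (y :: l) => walk K (br A (K (y - x))) y l

@[simp] theorem walk_nil (K : G → AddSubgroup L) (A : AddSubgroup L) (x : G) :
    walk K A x [] = A := rfl

@[simp] theorem walk_cons (K : G → AddSubgroup L) (A : AddSubgroup L) (x y : G) (l : List G) :
    walk K A x (y :: l) = walk K (br A (K (y - x))) y l := rfl

/-- the last vertex of the list `x :: l` -/
def endv : G → List G → G
  | x, [] => x
  | _, (y :: l) => endv y l

theorem walk_append (K : G → AddSubgroup L) (m : List G) : ∀ (l : List G) (A : AddSubgroup L)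
    (x : G), walk K A x (l ++ m) = walk K (walk K A x l) (endv x l) m := by
  intro l
  induction l with
  | nil => intro A x; rfl
  | cons y l ih => intro A x; exact ih _ _

omit [AddCommGroup G] in
theorem endv_append (m : List G) (y : G) : ∀ (l : List G) (x : G),
    endv x (l ++ y :: m) = endv y m := by
  intro l
  induction l with
  | nil => intro x; rfl
  | cons z l ih => intro x; exact ih z

theorem walk_mono (K : G → AddSubgroup L) : ∀ (l : List G) (A B : AddSubgroup L) (x : G),
    A ≤ B → walk K A x l ≤ walk K B x l := by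
  intro l
  induction l with
  | nil => intro A B x h; exact h
  | cons y l ih => intro A B x h; exact ih _ _ _ (br_mono h le_rfl)

theorem walk_sup_le (K : G → AddSubgroup L) : ∀ (l : List G) (A B : AddSubgroup L) (x : G),
    walk K (A ⊔ B) x l ≤ walk K A x l ⊔ walk K B x l := by
  intro l
  induction l with
  | nil => intro A B x; exact le_rfl
  | cons y l ih =>
    intro A B x
    exact le_trans (walk_mono K l _ _ y br_sup_le) (ih _ _ y)

theorem walk_bot (K : G → AddSubgroup L) : ∀ (l : List G) (x : G), walk K ⊥ x l = ⊥ := by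
  intro l
  induction l with
  | nil => intro x; rfl
  | cons y l ih =>
    intro x
    have : br (⊥ : AddSubgroup L) (K (y - x)) = ⊥ := by
      refine le_bot_iff.1 (br_le.2 ?_)
      intro a ha b _
      have : a = 0 := ha
      subst this
      rw [zero_lie]
      exact zero_mem _
    rw [walk_cons, this]
    exact ih y

theorem walk_le_of_stable {V K : G → AddSubgroup L} (h : star V K ≤ V) :
    ∀ (l : List G) (A : AddSubgroup L) (x : G), A ≤ V x → walk K A x l ≤ V (endv x l) := by
  intro l
  induction l with
  | nil => intro A x hA; exact hA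
  | cons y l ih =>
    intro A x hA
    refine ih _ _ (br_le.2 ?_)
    intro a ha b hb
    have := star_le.1 h _ _ _ (hA ha) _ hb
    rwa [add_sub_cancel] at this

/-- the product `[V_{x_0}, K_{x_1 - x_0}, K_{x_2 - x_1}, …]` along a walk -/
def prodw (V K : G → AddSubgroup L) : List G → AddSubgroup L
  | [] => ⊥
  | (x :: l) => walk K (V x) x l

theorem prodw_split (V K : G → AddSubgroup L) (l₁ : List G) (x : G) (l₂ : List G) :
    prodw V K (l₁ ++ x :: l₂) = walk K (prodw V K (l₁ ++ [x])) x l₂ := by
  cases l₁ with
  | nil => rfl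
  | cons a l₁ =>
    have e : (a :: l₁) ++ x :: l₂ = a :: ((l₁ ++ [x]) ++ l₂) := by simp
    have e' : (a :: l₁) ++ [x] = a :: (l₁ ++ [x]) := by simp
    rw [e, e']
    simp only [prodw]
    rw [walk_append, endv_append]
    rfl

theorem prodw_le {V K : G → AddSubgroup L} (h : star V K ≤ V) (l₁ : List G) (x : G) :
    prodw V K (l₁ ++ [x]) ≤ V x := by
  cases l₁ with
  | nil => exact le_rfl
  | cons a l₁ =>
    have e : (a :: l₁) ++ [x] = a :: (l₁ ++ [x]) := by simp
    rw [e]
    simp only [prodw]
    have := walk_le_of_stable h (l₁ ++ [x]) (V a) a le_rfl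
    rwa [endv_append] at this

/-- the last vertex of a word -/
def lastv : List G → G
  | [] => 0
  | (x :: l) => endv x l

theorem lastv_split (l₁ : List G) (x : G) (l₂ : List G) :
    lastv (l₁ ++ x :: l₂) = endv x l₂ := by
  cases l₁ with
  | nil => rfl
  | cons a l₁ => exact endv_append l₂ x l₁ a

/-- Dead words act trivially on sections with weights in `S`. -/
theorem prodw_dead {S : Set G} {V V0 K : G → AddSubgroup L} (hK : Closed K) (hK0 : K 0 = ⊥)
    (hVK : star V K ≤ V) (hV0K : star V0 K ≤ V0) (hS : ∀ i, i ∉ S → V i ≤ V0 i)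
    {w : List G} (h : Dead S w) : prodw V K w ≤ V0 (lastv w) := by
  induction h with
  | out l₁ x l₂ hx =>
    rw [prodw_split, lastv_split]
    exact walk_le_of_stable hV0K l₂ _ x (le_trans (prodw_le hVK l₁ x) (hS x hx))
  | stay l₁ x l₂ =>
    rw [prodw_split, walk_cons, sub_self, hK0, br_bot_right, walk_bot]
    exact bot_le
  | step l₁ x y z l₂ _ _ ih1 ih2 =>
    rw [prodw_split, lastv_split] at ih1 ih2 ⊢
    set A := prodw V K (l₁ ++ [x]) with hA
    rw [walk_cons, walk_cons] at ih1 ⊢
    rw [walk_cons] at ih2
    have e1 : x + z - y - x = z - y := by abel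
    have e2 : z - (x + z - y) = y - x := by abel
    rw [e1, e2] at ih1
    change walk K _ z l₂ ≤ V0 (endv z l₂) at ih1
    change walk K _ z l₂ ≤ V0 (endv z l₂) at ih2
    change walk K _ z l₂ ≤ V0 (endv z l₂)
    have hle : br (br A (K (y - x))) (K (z - y)) ≤
        br (br A (K (z - y))) (K (y - x)) ⊔ br A (K (z - x)) := by
      refine br_le.2 ?_
      intro v hv b hb
      have : br A (K (y - x)) ≤ (br (br A (K (z - y))) (K (y - x)) ⊔ br A (K (z - x))).comap
          ({ toFun := fun z => ⁅z, b⁆, map_zero' := zero_lie b,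
             map_add' := fun a c => add_lie a c b } : L →+ L) := by
        refine br_le.2 ?_
        intro u hu a ha
        change ⁅⁅u, a⁆, b⁆ ∈
          (br (br A (K (z - y))) (K (y - x)) ⊔ br A (K (z - x)) : AddSubgroup L)
        rw [jac']
        refine add_mem ?_ ?_
        · exact AddSubgroup.mem_sup_left (mem_br (mem_br hu hb) ha)
        · refine AddSubgroup.mem_sup_right (mem_br hu ?_)
          have := hK.mem ha hb
          have e : y - x + (z - y) = z - x := by abel
          rwa [e] at this
      exact this hv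
    refine le_trans (walk_mono K l₂ _ _ z hle) (le_trans (walk_sup_le K l₂ _ _ z) ?_)
    exact sup_le ih1 ih2

/-- Iterated products are generated by the products along walks. -/
theorem act_le_of_prodw {V K : G → AddSubgroup L} (m : ℕ) : ∀ Z : G → AddSubgroup L,
    (∀ w : List G, w.length = m + 1 → prodw V K w ≤ Z (lastv w)) → act V K m ≤ Z := by
  induction m with
  | zero =>
    intro Z h i
    exact h [i] rfl
  | succ m ih =>
    intro Z h
    rw [act_succ]
    refine star_le.2 ?_
    intro i j v hv y hy
    let Z' : G → AddSubgroup L := fun i =>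
      { carrier := {v | ∀ j, ∀ y ∈ K j, ⁅v, y⁆ ∈ Z (i + j)}
        zero_mem' := fun j y _ => by rw [zero_lie]; exact zero_mem _
        add_mem' := fun {a b} ha hb j y hy => by
          rw [add_lie]; exact add_mem (ha j y hy) (hb j y hy)
        neg_mem' := fun {a} ha j y hy => by rw [neg_lie]; exact neg_mem (ha j y hy) }
    have h1 : act V K m ≤ Z' := by
      refine ih Z' ?_
      intro w hw v hv j y hy
      obtain ⟨a, l, rfl⟩ : ∃ a l, w = a :: l := by
        cases w with
        | nil => simp at hw
        | cons a l => exact ⟨a, l, rfl⟩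
      have h2 := h ((a :: l) ++ [lastv (a :: l) + j]) (by
        rw [List.length_append, hw]; rfl)
      have h3 : lastv ((a :: l) ++ [lastv (a :: l) + j]) = lastv (a :: l) + j := by
        rw [lastv_split]; rfl
      rw [h3] at h2
      refine h2 ?_
      change ⁅v, y⁆ ∈ walk K (V a) a (l ++ [endv a l + j])
      rw [walk_append, walk_cons, walk_nil, add_sub_cancel_left]
      exact mem_br hv hy
    exact h1 i hv j y hy

/-- If the game is won with `N` letters then the index of `K` on sections with weights in `S` is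
at most `N`. -/
theorem act_le {S : Set G} {N : ℕ} (hW : Won S N) {V V0 K : G → AddSubgroup L}
    (hK : Closed K) (hK0 : K 0 = ⊥) (hVK : star V K ≤ V) (hV0K : star V0 K ≤ V0)
    (hS : ∀ i, i ∉ S → V i ≤ V0 i) : act V K N ≤ V0 := by
  refine act_le_of_prodw N V0 ?_
  intro w hw
  exact prodw_dead hK hK0 hVK hV0K hS (hW w (by omega))

/-- `L^{(k)} ≤ γ_{2^k}(L)` -/
theorem der_le_act (X : G → AddSubgroup L) (k : ℕ) : der X k ≤ act X X (2 ^ k - 1) := by
  induction k with
  | zero => exact le_rfl
  | succ k ih =>
    rw [der_succ]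
    refine le_trans (star_mono ih le_rfl) (le_trans (star_der_le_act X k _) ?_)
    rw [← act_add]
    have h : 1 ≤ 2 ^ k := Nat.one_le_two_pow
    have e : 2 ^ k - 1 + 2 ^ k = 2 ^ (k + 1) - 1 := by
      rw [pow_succ]; omega
    rw [e]

theorem der_eq_bot {S : Set G} {N k : ℕ} (hW : Won S N) (hk : N + 1 ≤ 2 ^ k)
    {X : G → AddSubgroup L} (hX : Closed X) (hX0 : X 0 = ⊥) (hS : ∀ i, i ∉ S → X i = ⊥) :
    der X k ≤ fun _ => ⊥ := by
  refine le_trans (der_le_act X k) ?_
  refine le_trans (act_anti hX (by omega : N ≤ 2 ^ k - 1)) ?_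
  refine act_le hW hX hX0 hX ?_ ?_
  · refine star_le.2 ?_
    intro i j x hx y _
    have : x = 0 := hx
    subst this
    rw [zero_lie]
    exact zero_mem _
  · intro i hi
    rw [hS i hi]

/-- the additive recursion for `P` -/
theorem P_of_won (j : ℕ) (c : ℕ) : ∀ S : Finset G, S.card = c →
    (∀ S' ⊆ S, Won (S' : Set G) (2 ^ j)) → P L (S : Set G) (c * (j + 1)) := by
  classical
  induction c with
  | zero =>
    intro S hc _
    have : S = ∅ := Finset.card_eq_zero.1 hc
    subst this
    rw [Finset.coe_empty]
    exact P_empty _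
  | succ c ih =>
    intro S hc hW
    have hb : ∀ b ∈ (S : Set G), P L ((S : Set G) \ {b}) (c * (j + 1)) := by
      intro b hb
      rw [← Finset.coe_erase]
      refine ih (S.erase b) ?_ ?_
      · rw [Finset.card_erase_of_mem hb, hc]
        rfl
      · intro S' hS'
        exact hW S' (hS'.trans (Finset.erase_subset _ _))
    have hstep := P_step (L := L) (j := j) hb ?_
    · refine hstep.mono le_rfl ?_
      ring_nf
      omega
    · intro X K hX hX0 hK hKX hoff
      have hK0 : K 0 = ⊥ := le_bot_iff.1 (hX0 ▸ hKX 0)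
      exact act_le (hW S le_rfl) hK hK0 (le_trans (star_mono le_rfl hKX) hX) hK
        (fun i hi => hoff i hi)

end Pool.Agent.H24.Krek
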