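import Pool.Agent.H24.Krek.Game

/-!
# The game on sets without midpoints

If every nonempty subset of `S` has an element which is not the midpoint of two other elements
then all words over `S` with at least `2 ^ |S| - 1` letters are dead.
-/

set_option autoImplicit false

namespace Pool.Agent.H24.Krek

open Pool.Agent.H75.Krek

variable {G : Type*} [AddCommGroup G]

omit [AddCommGroup G] in
theorem lastD_append (a : G) (p : List G) (y : G) : endv a (p ++ [y]) = y :=
  endv_append [] y p a

/-- Moving a letter `e` to the left: the walk `a, p, (last + e), q` is dead if the walk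
`a, a + e, p + e, q` is dead and all walks with one vertex deleted on the way are dead. -/
theorem slide {S : Set G} (e a : G) (p : List G) : ∀ q : List G,
    Dead S (a :: (a + e) :: (p.map (· + e) ++ q)) →
    (∀ (p₁ : List G) (y : G) (p₂ : List G), p = p₁ ++ y :: p₂ →
      Dead S (a :: (p₁ ++ (y + e) :: (p₂.map (· + e) ++ q)))) →
    Dead S (a :: (p ++ (endv a p + e) :: q)) := by
  induction p using List.reverseRecOn with
  | nil => intro q h _; exact h
  | append_singleton p y ih =>
    intro q h1 h2
    rw [lastD_append]
    have h3 : Dead S (a :: (p ++ (endv a p + e) :: (y + e) :: q)) := by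
      refine ih ((y + e) :: q) ?_ ?_
      · rw [List.map_append] at h1
        simpa using h1
      · intro p₁ z p₂ hp
        have := h2 p₁ z (p₂ ++ [y]) (by rw [hp]; simp)
        simpa using this
    have h4 : Dead S (a :: (p ++ (y + e) :: q)) := by
      have := h2 p y [] rfl
      simpa using this
    -- the last letter of `a :: p` is `endv a p`
    obtain ⟨l, hl⟩ : ∃ l : List G, a :: p = l ++ [endv a p] := by
      clear ih h1 h2 h3 h4
      induction p using List.reverseRecOn with
      | nil => exact ⟨[], rfl⟩
      | append_singleton p z _ => exact ⟨a :: p, by rw [lastD_append]; simp⟩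
    have e1 : a :: (p ++ (endv a p + e) :: (y + e) :: q) =
        l ++ endv a p :: (endv a p + (y + e) - y) :: (y + e) :: q := by
      have : a :: (p ++ (endv a p + e) :: (y + e) :: q) =
          (a :: p) ++ (endv a p + e) :: (y + e) :: q := rfl
      rw [this, hl, List.append_assoc]
      have e2 : endv a p + (y + e) - y = endv a p + e := by abel
      rw [e2]
      simp
    have e3 : a :: (p ++ (y + e) :: q) = l ++ endv a p :: (y + e) :: q := by
      have : a :: (p ++ (y + e) :: q) = (a :: p) ++ (y + e) :: q := rfl
      rw [this, hl, List.append_assoc]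
      simp
    have e5 : a :: ((p ++ [y]) ++ (y + e) :: q) = l ++ endv a p :: y :: (y + e) :: q := by
      have : a :: ((p ++ [y]) ++ (y + e) :: q) = (a :: p) ++ y :: (y + e) :: q := by simp
      rw [this, hl, List.append_assoc]
      simp
    rw [e5]
    rw [e1] at h3
    rw [e3] at h4
    exact Dead.step _ _ _ _ _ h3 h4

/-- Closed walks at a vertex which is not a midpoint are dead. -/
theorem loop_dead {S : Set G} {t : G} (ht : ∀ x ∈ S, x ≠ t → t + t - x ∉ S) (n : ℕ) :
    ∀ l : List G, l.length ≤ n → Dead S (t :: (l ++ [t])) := by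
  induction n with
  | zero =>
    intro l hl
    have : l = [] := List.length_eq_zero_iff.1 (Nat.le_zero.1 hl)
    subst this
    exact Dead.stay [] t []
  | succ n ih =>
    intro l hl
    rcases List.eq_nil_or_concat' l with rfl | ⟨p, x, rfl⟩
    · exact Dead.stay [] t []
    by_cases hx : x ∈ S
    swap
    · exact Dead.of_notMem (x := x) (by simp) hx
    by_cases hxt : x = t
    · subst hxt
      have : x :: (p ++ [x] ++ [x]) = (x :: p) ++ x :: x :: [] := by simp
      rw [this]
      exact Dead.stay _ _ _
    have hout := ht x hx hxt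
    have h := slide (S := S) (t - x) t (p ++ [x]) [] ?_ ?_
    · rw [lastD_append] at h
      have e : x + (t - x) = t := by abel
      rw [e] at h
      exact h
    · refine Dead.of_notMem (x := t + (t - x)) (by simp) ?_
      have e : t + (t - x) = t + t - x := by abel
      rw [e]
      exact hout
    · intro p₁ y p₂ hp
      rcases List.eq_nil_or_concat' p₂ with rfl | ⟨p₂, z, rfl⟩
      · have h1 : p = p₁ ∧ x = y := by
          have := List.append_inj' hp rfl
          exact ⟨this.1, by simpa using this.2⟩
        obtain ⟨rfl, rfl⟩ := h1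
        have e : x + (t - x) = t := by abel
        rw [e]
        have := ih p (by simp at hl; omega)
        simpa using this
      · have h1 : p = p₁ ++ y :: p₂ ∧ x = z := by
          have e : p₁ ++ y :: (p₂ ++ [z]) = (p₁ ++ y :: p₂) ++ [z] := by simp
          rw [e] at hp
          have := List.append_inj' hp rfl
          exact ⟨this.1, by simpa using this.2⟩
        obtain ⟨rfl, rfl⟩ := h1
        have e : x + (t - x) = t := by abel
        have := ih (p₁ ++ (y + (t - x)) :: p₂.map (· + (t - x))) (by
          simp at hl ⊢; omega)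
        simpa [e] using this

/-- Words visiting twice a vertex which is not a midpoint are dead. -/
theorem twice_dead {S : Set G} {t : G} (ht : ∀ x ∈ S, x ≠ t → t + t - x ∉ S) (a l b : List G) :
    Dead S (a ++ t :: (l ++ t :: b)) := by
  have h := (loop_dead ht l.length l le_rfl).factor a b
  have e : a ++ t :: (l ++ [t]) ++ b = a ++ t :: (l ++ t :: b) := by simp
  rwa [e] at h

/-- A word which is dead over `S \ {t}` is dead over `S` in a context as soon as all the words
with the same ends, not longer and visiting `t`, are. -/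
theorem Dead.ctx {S : Set G} {t : G} {A : List G} (h : Dead (S \ {t}) A) (l r : List G)
    (H : ∀ A' : List G, t ∈ A' → A'.head? = A.head? → A'.getLast? = A.getLast? →
      A'.length ≤ A.length → Dead S (l ++ A' ++ r)) : Dead S (l ++ A ++ r) := by
  induction h with
  | out l₁ x l₂ hx =>
    by_cases hxt : x = t
    · subst hxt
      exact H _ (by simp) rfl rfl le_rfl
    · exact (Dead.out l₁ x l₂ fun h => hx ⟨h, hxt⟩).factor l r
  | stay l₁ x l₂ => exact (Dead.stay l₁ x l₂).factor l r
  | step l₁ x y z l₂ _ _ ih1 ih2 =>
    have e : l ++ (l₁ ++ x :: y :: z :: l₂) ++ r = (l ++ l₁) ++ x :: y :: z :: (l₂ ++ r) := by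
      simp
    have e1 : l ++ (l₁ ++ x :: (x + z - y) :: z :: l₂) ++ r =
        (l ++ l₁) ++ x :: (x + z - y) :: z :: (l₂ ++ r) := by simp
    have e2 : l ++ (l₁ ++ x :: z :: l₂) ++ r = (l ++ l₁) ++ x :: z :: (l₂ ++ r) := by simp
    have hh1 : (l₁ ++ x :: (x + z - y) :: z :: l₂).head? = (l₁ ++ x :: y :: z :: l₂).head? := by
      cases l₁ <;> rfl
    have hh2 : (l₁ ++ x :: z :: l₂).head? = (l₁ ++ x :: y :: z :: l₂).head? := by
      cases l₁ <;> rfl
    have hl1 : (l₁ ++ x :: (x + z - y) :: z :: l₂).getLast? =
        (l₁ ++ x :: y :: z :: l₂).getLast? := by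
      rw [List.getLast?_append_of_ne_nil _ (by simp), List.getLast?_append_of_ne_nil _ (by simp)]
      simp [List.getLast?_cons_cons]
    have hl2 : (l₁ ++ x :: z :: l₂).getLast? = (l₁ ++ x :: y :: z :: l₂).getLast? := by
      rw [List.getLast?_append_of_ne_nil _ (by simp), List.getLast?_append_of_ne_nil _ (by simp)]
      simp [List.getLast?_cons_cons]
    rw [e]
    refine Dead.step _ _ _ _ _ ?_ ?_
    · rw [← e1]
      refine ih1 ?_
      intro A' h1 h2 h3 h4
      exact H A' h1 (h2.trans hh1) (h3.trans hl1) (by simpa using h4)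
    · rw [← e2]
      refine ih2 ?_
      intro A' h1 h2 h3 h4
      refine H A' h1 (h2.trans hh2) (h3.trans hl2) (le_trans h4 ?_)
      simp

/-- Elimination of a vertex which is not a midpoint. -/
theorem Won.insert {S : Set G} {t : G} {N : ℕ} (hW : Won (S \ {t}) N)
    (ht : ∀ x ∈ S, x ≠ t → t + t - x ∉ S) : Won S (2 * N + 1) := by
  intro w hw
  have h1 : Dead (S \ {t}) (w.take (N + 1)) := hW _ (by rw [List.length_take]; omega)
  have h2 : Dead (S \ {t}) (w.drop (N + 1)) := hW _ (by rw [List.length_drop]; omega)
  have h3 : Dead S ([] ++ w.take (N + 1) ++ w.drop (N + 1)) := by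
    refine h1.ctx [] _ ?_
    intro A' hA' _ _ _
    have h4 : Dead S (A' ++ w.drop (N + 1) ++ []) := by
      refine h2.ctx A' [] ?_
      intro C' hC' _ _ _
      obtain ⟨a, l, rfl⟩ := List.append_of_mem hA'
      obtain ⟨l', b, rfl⟩ := List.append_of_mem hC'
      have := twice_dead ht a (l ++ l') b
      simpa using this
    simpa using h4
  rw [List.nil_append, List.take_append_drop] at h3
  exact h3

/-- The game on a finite set all of whose nonempty subsets have an element which is not a
midpoint. -/
theorem won_of_noMid (s : ℕ) : ∀ S : Finset G, S.card = s →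
    (∀ Y ⊆ S, Y.Nonempty → ∃ t ∈ Y, ∀ x ∈ Y, x ≠ t → t + t - x ∉ Y) →
    Won (S : Set G) (2 ^ s - 1) := by
  classical
  induction s with
  | zero =>
    intro S hs _ w hw
    have hS : S = ∅ := Finset.card_eq_zero.1 hs
    subst hS
    obtain ⟨a, l, rfl⟩ : ∃ a l, w = a :: l := by
      cases w with
      | nil => simp at hw
      | cons a l => exact ⟨a, l, rfl⟩
    exact Dead.out [] a l (by simp)
  | succ s ih =>
    intro S hs hmid
    have hne : S.Nonempty := by
      rw [← Finset.card_pos]; omega
    obtain ⟨t, htS, ht⟩ := hmid S le_rfl hne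
    have h1 := ih (S.erase t) (by rw [Finset.card_erase_of_mem htS]; omega) (by
      intro Y hY hYne
      exact hmid Y (hY.trans (Finset.erase_subset _ _)) hYne)
    rw [Finset.coe_erase] at h1
    have h2 := Won.insert h1 (S := (S : Set G)) (by
      intro x hx hxt
      exact ht x hx hxt)
    have h3 : 1 ≤ 2 ^ s := Nat.one_le_two_pow
    have e : 2 * (2 ^ s - 1) + 1 = 2 ^ (s + 1) - 1 := by
      rw [pow_succ]; omega
    rwa [e] at h2

end Pool.Agent.H24.Krek
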